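import Pool.Agent.Helper18.FF3.Stmts

/-! # KPC: a rational function which is a constant times an `m`-th power for all `m` is constant -/

set_option autoImplicit false

namespace Pool.Agent.Helper18.FF3

open Polynomial

theorem kpc_deg {A : Type} [Field A] {P N : A[X]} {m : ℕ} (hN : N ≠ 0) (hm : N.natDegree < m)
    (h : P ^ m ∣ N) : P.natDegree = 0 := by
  have h1 := natDegree_le_of_dvd h hN
  rw [natDegree_pow] at h1
  by_contra hP
  have h2 : m ≤ m * P.natDegree := Nat.le_mul_of_pos_right m (Nat.pos_of_ne_zero hP)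
  omega

theorem kpc_deg0 {A : Type} [Field A] {P N : A[X]} (hP : P ≠ 0) (hP0 : P.natDegree = 0)
    (h : N ∣ P) : N.natDegree = 0 := by
  have h1 := natDegree_le_of_dvd h hP
  omega

theorem st_KPC : ST_KPC := by
  intro A _ h hh H
  have hN0 : h.num ≠ 0 := RatFunc.num_ne_zero hh
  have hD0 : h.denom ≠ 0 := RatFunc.denom_ne_zero h
  have hco : IsCoprime h.num h.denom := RatFunc.isCoprime_num_denom h
  obtain ⟨b, z, hz⟩ := H (h.num.natDegree + h.denom.natDegree + 1) (by omega)
  set m := h.num.natDegree + h.denom.natDegree + 1 with hm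
  have hb0 : b ≠ 0 := by
    rintro rfl
    rw [map_zero, zero_mul] at hz
    exact hh hz
  have hz0 : z ≠ 0 := by
    rintro rfl
    rw [zero_pow (by omega), mul_zero] at hz
    exact hh hz
  have hP0 : z.num ≠ 0 := RatFunc.num_ne_zero hz0
  have hQ0 : z.denom ≠ 0 := RatFunc.denom_ne_zero z
  have hco' : IsCoprime z.num z.denom := RatFunc.isCoprime_num_denom z
  have hinj := RatFunc.algebraMap_injective A
  have hD0' : algebraMap A[X] (RatFunc A) h.denom ≠ 0 := fun h1 => hD0 (hinj (by rw [h1, map_zero]))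
  have hQ0' : algebraMap A[X] (RatFunc A) z.denom ≠ 0 := fun h1 => hQ0 (hinj (by rw [h1, map_zero]))
  have key : h.num * z.denom ^ m = (C b * z.num ^ m) * h.denom := by
    apply hinj
    rw [map_mul, map_mul, map_mul, map_pow, map_pow]
    have e1 := RatFunc.num_div_denom h
    have e2 := RatFunc.num_div_denom z
    have e3 : algebraMap A[X] (RatFunc A) h.num = h * algebraMap A[X] (RatFunc A) h.denom :=
      (div_eq_iff hD0').1 e1
    have e4 : algebraMap A[X] (RatFunc A) z.num = z * algebraMap A[X] (RatFunc A) z.denom :=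
      (div_eq_iff hQ0').1 e2
    rw [e3, e4, RatFunc.algebraMap_C]
    nth_rewrite 1 [hz]
    rw [mul_pow]
    ring
  have hCb : IsUnit (C b : A[X]) := isUnit_C.2 (isUnit_iff_ne_zero.2 hb0)
  have hcoP : IsCoprime (z.denom ^ m) (C b * z.num ^ m) := by
    apply IsCoprime.mul_right
    · obtain ⟨w, hw⟩ := hCb.exists_left_inv
      exact ⟨0, w, by rw [hw, zero_mul, zero_add]⟩
    · exact hco'.symm.pow
  -- the denominator
  have d1 : z.denom ^ m ∣ h.denom := hcoP.dvd_of_dvd_mul_left (Dvd.intro_left _ key)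
  have d2 : h.denom ∣ z.denom ^ m := hco.symm.dvd_of_dvd_mul_left (Dvd.intro_left _ key.symm)
  have d3 := kpc_deg hD0 (by omega) d1
  have d4 : (z.denom ^ m).natDegree = 0 := by rw [natDegree_pow, d3, mul_zero]
  have d5 := kpc_deg0 (pow_ne_zero m hQ0) d4 d2
  -- the numerator
  have n1 : C b * z.num ^ m ∣ h.num := hcoP.symm.dvd_of_dvd_mul_right (Dvd.intro _ key.symm)
  have n2 : h.num ∣ C b * z.num ^ m := hco.dvd_of_dvd_mul_right (Dvd.intro _ key)
  have n3 := kpc_deg hN0 (by omega) ((Dvd.intro_left _ rfl).trans n1)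
  have n4 : (C b * z.num ^ m).natDegree = 0 := by
    rw [natDegree_C_mul hb0, natDegree_pow, n3, mul_zero]
  have n5 := kpc_deg0 (mul_ne_zero hCb.ne_zero (pow_ne_zero m hP0)) n4 n2
  rw [natDegree_eq_zero] at d5 n5
  obtain ⟨v, hv⟩ := d5
  obtain ⟨u, hu⟩ := n5
  refine ⟨u / v, ?_⟩
  rw [← RatFunc.num_div_denom h, ← hv, ← hu, RatFunc.algebraMap_C, RatFunc.algebraMap_C, map_div₀]

end Pool.Agent.Helper18.FF3
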